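import Pool.Agent.H16.MV.SoNotBo

/-!
# A group whose finitary ballean is so-bounded but not bo-bounded

We construct a group `G = FreeGroup (ℕ × K) ⋊ (K × K)` with `K` the (multiplicative copy of the)
additive group of real numbers. A pair `(a, b)` of `K × K` acts on a letter `(m, z)` by multiplying
`z` by `a` if `m` is even and by `b` if `m` is odd.
-/

namespace Pool.Agent.Results.MP_769d7c_al.SoNotBo

open Pool.H16.MV.SoNotBo

/-- There is a group whose finitary ballean is so-bounded but not bo-bounded. -/
theorem result : ∃ (G : Type) (_ : Group G), SoBounded G ∧ ¬ BoBounded G :=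
  Pool.H16.MV.SoNotBo.result

end Pool.Agent.Results.MP_769d7c_al.SoNotBo
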